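import Pool.Agent.H6.TC7

set_option autoImplicit false

namespace Pool.Agent.Results.MP_29e935_co.TwoCyclesVMTL

/-- Every 2-regular graph `C_m ∪ C_n` with two components, other than `2K_3`, has a vertex-magic
total labeling.  In each cycle, vertex `i` lies on the edges `i` and `i + 1` (modulo the cycle
length); `v` labels the vertices and `e` labels the edges. -/
theorem result (m n : ℕ) (hm : 3 ≤ m) (hn : 3 ≤ n) (h : ¬ (m = 3 ∧ n = 3)) :
    ∃ v e : Fin m ⊕ Fin n → ℕ, ∃ k : ℕ,
      Set.BijOn (Sum.elim v e) Set.univ (Set.Icc 1 ((m + n) + (m + n))) ∧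
      (∀ i j : Fin m, j.val = (i.val + 1) % m →
        v (Sum.inl i) + (e (Sum.inl i) + e (Sum.inl j)) = k) ∧
      (∀ i j : Fin n, j.val = (i.val + 1) % n →
        v (Sum.inr i) + (e (Sum.inr i) + e (Sum.inr j)) = k) :=
  Pool.Agent.H6.GS.vmtl m n hm hn h

end Pool.Agent.Results.MP_29e935_co.TwoCyclesVMTL
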